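import Mathlib

/-!
# Optimal burning sequences and minimum lazy burning sets: a counterexample

The hypergraph on `{0, 1, 2, 3, 4}` with edges `02`, `012`, `014`, `123`, `124` has lazy burning
number `1` and burning number `3`; `(1, 4, 3)` is an optimal burning sequence, and none of
`{1}`, `{3}`, `{4}` is a lazy burning set.
-/

set_option autoImplicit false

namespace Pool.Agent.Results.MP_50e72c_co.BurningSources

variable {V : Type} [Fintype V] [DecidableEq V]

/-- The unburned vertices that catch fire from the set `B` of burned vertices. -/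
def catches (E : Multiset (Finset V)) (B : Finset V) : Finset V :=
  Finset.univ.filter fun v => v ∉ B ∧ ∃ e ∈ E, 2 ≤ e.card ∧ v ∈ e ∧ e.erase v ⊆ B

/-- The burned vertices after further rounds with the given sources, starting from the burned
set `F`. -/
def final (E : Multiset (Finset V)) : Finset V → List V → Finset V
  | F, [] => F
  | F, u :: l => final E (insert u (F ∪ catches E F)) l

/-- Every source is unburned at the end of the previous round. -/
def Valid (E : Multiset (Finset V)) : Finset V → List V → Prop
  | _, [] => True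
  | F, u :: l => u ∉ F ∧ Valid E (insert u (F ∪ catches E F)) l

/-- Burning sequences. -/
def IsBurning (E : Multiset (Finset V)) (l : List V) : Prop :=
  Valid E ∅ l ∧ final E ∅ l = Finset.univ

/-- Optimal burning sequences; the length of such a sequence is the burning number. -/
def IsOptimal (E : Multiset (Finset V)) (l : List V) : Prop :=
  IsBurning E l ∧ ∀ l', IsBurning E l' → l.length ≤ l'.length

/-- Lazy burning sets. -/
def IsLazy (E : Multiset (Finset V)) (S : Finset V) : Prop :=
  ∃ m : ℕ, (fun B => B ∪ catches E B)^[m] S = Finset.univ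

/-- Minimum lazy burning sets; the size of such a set is the lazy burning number. -/
def IsMinLazy (E : Multiset (Finset V)) (S : Finset V) : Prop :=
  IsLazy E S ∧ ∀ S', IsLazy E S' → S.card ≤ S'.card

/-- The counterexample. -/
def E₀ : Multiset (Finset (Fin 5)) := {{0, 2}, {0, 1, 2}, {0, 1, 4}, {1, 2, 3}, {1, 2, 4}}

theorem burning : IsBurning E₀ [1, 4, 3] := by
  refine ⟨⟨by decide, by decide, by decide, trivial⟩, by decide⟩

theorem not_burning_two : ∀ u v : Fin 5, final E₀ ∅ [u, v] ≠ Finset.univ := by decide

theorem not_burning_one : ∀ u : Fin 5, final E₀ ∅ [u] ≠ Finset.univ := by decide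

theorem optimal : IsOptimal E₀ [1, 4, 3] := by
  refine ⟨burning, ?_⟩
  rintro l ⟨_, hl⟩
  match l, hl with
  | [], h => exact absurd h (by decide)
  | [u], h => exact absurd h (not_burning_one u)
  | [u, v], h => exact absurd h (not_burning_two u v)
  | _ :: _ :: _ :: _, _ => simp

theorem lazy_zero : IsLazy E₀ {0} := ⟨3, by decide⟩

theorem not_lazy {S : Finset (Fin 5)} (hS : S ⊆ {1, 3, 4}) (hc : S.card ≤ 1) : ¬ IsLazy E₀ S := by
  have h1 : ∀ S ∈ Finset.powerset ({1, 3, 4} : Finset (Fin 5)), S.card ≤ 1 →
      S ∪ catches E₀ S = S ∧ S ≠ Finset.univ := by decide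
  obtain ⟨h2, h3⟩ := h1 S (Finset.mem_powerset.2 hS) hc
  rintro ⟨m, hm⟩
  have h4 : ∀ m : ℕ, (fun B => B ∪ catches E₀ B)^[m] S = S := fun m =>
    Function.iterate_fixed h2 m
  rw [h4 m] at hm
  exact h3 hm

/-- **A counterexample.**  There are a hypergraph on five vertices, each vertex in some edge, and
an optimal burning sequence of it such that no subset of the set of sources is a minimum lazy
burning set. -/
theorem result : ∃ (E : Multiset (Finset (Fin 5))) (l : List (Fin 5)),
    (∀ v, ∃ e ∈ E, v ∈ e) ∧ IsOptimal E l ∧
      ¬ ∃ S : Finset (Fin 5), S ⊆ l.toFinset ∧ IsMinLazy E S := by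
  refine ⟨E₀, [1, 4, 3], by decide, optimal, ?_⟩
  rintro ⟨S, hS, hmin⟩
  have h1 : S.card ≤ 1 := by
    have := hmin.2 _ lazy_zero
    simpa using this
  have h2 : ([1, 4, 3] : List (Fin 5)).toFinset ⊆ {1, 3, 4} := by decide
  exact not_lazy (hS.trans h2) h1 hmin.1

end Pool.Agent.Results.MP_50e72c_co.BurningSources
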